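import Pool.Agent.Lib.MFib.Formal

/-!
# MP_7a61d8_gt, module F.Aug (size 170): functionals on the truncated quadratic algebra

PROOF. `augQ` : `RingQuot.liftAlgHom` of `FreeAlgebra.lift ℚ (fun _ => 0)` (a word of length `k + 1` contains a generator).
`augQ_lie`: induction. `augQ_grouplike`: the term `i = 0` is `1`, the others are powers of an element of augmentation `0`.
`exists_functionals`: let `L = MonoidAlgebra.lift ℚ _ G ρ` (surjective, kernel `I ^ (k + 1)`), `ε = augG G`. `ε x = augQ (L x)` (algebra homs which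
agree on the elements of `G`: both give `1`). For a function `u : G → ℂ` let `u~ : ℚ[G] → ℂ` be the linear extension. By bilinearity
`a~ (x y) = a~ x ε y + ε x a~ y`, the same for `b`, and `c~ (x y) = c~ x ε y + ε x c~ y + a~ x b~ y`. (Here `ε x ∈ ℚ` is cast to `ℂ`.)
So `a~`, `b~` vanish on `I ^ 2` and `c~` vanishes on `I ^ 3` (`c~ (x y) = a~ x b~ y = 0` for `x ∈ I ^ 2`, `y ∈ I`; `Submodule.mul_induction_on`), hence
all three vanish on `I ^ (k + 1)` (`k + 1 ≥ 3`; `I ^ (m + 1) ≤ I ^ m` for `m ≥ 1` because `I * I ≤ I`). As `L` is surjective with kernel `I ^ (k + 1)` there are linear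
`fa fb fc : QAlg → ℂ` with `fa (L x) = a~ x` etc. `fa 1 = a 1 = 0`. If `augQ x = augQ y = 0`, `x = L x'`, `y = L y'`, then `ε x' = ε y' = 0` and
`fa (x y) = a~ (x' y') = 0`; `fc (x y) = a~ x' b~ y' = fa x * fb y`. For `r ∈ R`: `∑ r i j • (gen i * gen j) = 0` in the quotient (`RingQuot.mkAlgHom_rel`); apply `fc`.
-/

set_option autoImplicit false

universe u

namespace MFib

/-- the augmentation of the truncated quadratic algebra -/
theorem exists_augQ (n : ℕ) (R : Set (Matrix (Fin n) (Fin n) ℚ)) (k : ℕ) :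
    ∃ f : QAlg n R k →ₐ[ℚ] ℚ, ∀ i, f (gen n R k i) = 0 := by
  classical
  have w : ∀ ⦃x y : FreeAlgebra ℚ (Fin n)⦄, QRel n R k x y →
      FreeAlgebra.lift ℚ (fun _ : Fin n => (0 : ℚ)) x =
        FreeAlgebra.lift ℚ (fun _ : Fin n => (0 : ℚ)) y := by
    intro x y h
    cases h with
    | quad hr => simp [map_sum]
    | word w =>
      rw [List.ofFn_succ, List.prod_cons, map_mul, FreeAlgebra.lift_ι_apply, zero_mul, map_zero]
  refine ⟨RingQuot.liftAlgHom ℚ ⟨FreeAlgebra.lift ℚ (fun _ : Fin n => (0 : ℚ)), w⟩, fun i => ?_⟩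
  rw [gen, RingQuot.liftAlgHom_mkAlgHom_apply, FreeAlgebra.lift_ι_apply]

/-- the augmentation of the truncated quadratic algebra -/
noncomputable def augQ (n : ℕ) (R : Set (Matrix (Fin n) (Fin n) ℚ)) (k : ℕ) : QAlg n R k →ₐ[ℚ] ℚ :=
  (exists_augQ n R k).choose

theorem augQ_gen {n : ℕ} {R : Set (Matrix (Fin n) (Fin n) ℚ)} {k : ℕ} (i : Fin n) :
    augQ n R k (gen n R k i) = 0 := (exists_augQ n R k).choose_spec i

theorem augQ_lie {n : ℕ} {R : Set (Matrix (Fin n) (Fin n) ℚ)} {k : ℕ} {x : QAlg n R k}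
    (hx : IsLieEl x) : augQ n R k x = 0 := by
  induction hx with
  | gen i => exact augQ_gen i
  | zero => exact map_zero _
  | add _ _ h1 h2 => rw [map_add, h1, h2, add_zero]
  | smul c _ h => rw [map_smul, h, smul_zero]
  | bracket _ _ h1 h2 => rw [map_sub, map_mul, map_mul, h1, h2, mul_zero, sub_zero]

theorem augQ_grouplike {n : ℕ} {R : Set (Matrix (Fin n) (Fin n) ℚ)} {k : ℕ} {x : QAlg n R k}
    (hx : IsGrouplike x) : augQ n R k x = 1 := by
  obtain ⟨z, hz, rfl⟩ := hx
  rw [map_sum, Finset.sum_range_succ']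
  have h : ∀ i ∈ Finset.range k,
      augQ n R k ((((i + 1).factorial : ℚ)⁻¹) • z ^ (i + 1)) = 0 := by
    intro i _
    rw [map_smul, map_pow, augQ_lie hz, zero_pow (Nat.succ_ne_zero i), smul_zero]
  rw [Finset.sum_eq_zero h, zero_add, map_smul, map_pow, pow_zero]
  simp

/-- the linear extension of a function on the group -/
private noncomputable def lext {G : Type u} [Group G] (v : G → ℂ) : MonoidAlgebra ℚ G →ₗ[ℚ] ℂ :=
  (Finsupp.linearCombination ℚ v).comp (MonoidAlgebra.coeffLinearEquiv ℚ).toLinearMap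

private theorem lext_of {G : Type u} [Group G] (v : G → ℂ) (g : G) :
    lext v (MonoidAlgebra.of ℚ G g) = v g := by
  simp [lext]

private theorem augG_of {G : Type u} [Group G] (g : G) :
    augG G (MonoidAlgebra.of ℚ G g) = 1 := by
  rw [augG, MonoidAlgebra.lift_of]; rfl

private theorem lext_mul {G : Type u} [Group G] {v p q : G → ℂ}
    (h : ∀ g h, v (g * h) = v g + v h + p g * q h) (x y : MonoidAlgebra ℚ G) :
    lext v (x * y) = lext v x * ((augG G y : ℚ) : ℂ) + ((augG G x : ℚ) : ℂ) * lext v y +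
      lext p x * lext q y := by
  induction x using MonoidAlgebra.induction_on with
  | of g =>
    induction y using MonoidAlgebra.induction_on with
    | of g' =>
      rw [← map_mul, lext_of, lext_of, lext_of, lext_of, lext_of, augG_of, augG_of, h]
      push_cast
      ring
    | add y z hy hz =>
      rw [mul_add, map_add, hy, hz]
      simp only [map_add]
      push_cast
      ring
    | smul r y hy =>
      rw [mul_smul_comm, map_smul, hy]
      simp only [map_smul, Rat.smul_def, smul_eq_mul]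
      push_cast
      ring
  | add x z hx hz =>
    rw [add_mul, map_add, hx, hz]
    simp only [map_add]
    push_cast
    ring
  | smul r x hx =>
    rw [smul_mul_assoc, map_smul, hx]
    simp only [map_smul, Rat.smul_def, smul_eq_mul]
    push_cast
    ring

private theorem lext_mul_add {G : Type u} [Group G] {v : G → ℂ}
    (h : ∀ g h, v (g * h) = v g + v h) (x y : MonoidAlgebra ℚ G) :
    lext v (x * y) = lext v x * ((augG G y : ℚ) : ℂ) + ((augG G x : ℚ) : ℂ) * lext v y := by
  have h0 : lext (fun _ : G => (0 : ℂ)) = 0 := by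
    refine LinearMap.ext fun z => ?_
    induction z using MonoidAlgebra.induction_on with
    | of g => rw [lext_of]; rfl
    | add y z hy hz => rw [map_add, map_add, hy, hz]
    | smul r y hy => rw [map_smul, map_smul, hy]
  have := lext_mul (v := v) (p := fun _ => 0) (q := fun _ => 0) (fun g g' => by rw [h]; ring) x y
  rw [this, h0]
  simp

private theorem mem_aug {G : Type u} [Group G] {x : MonoidAlgebra ℚ G} :
    x ∈ augIdeal G ↔ augG G x = 0 := LinearMap.mem_ker

private theorem aug_pow {G : Type u} [Group G] (m : ℕ) :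
    ∀ x ∈ augIdeal G ^ (m + 1), augG G x = 0 := by
  induction m with
  | zero => intro x hx; rw [zero_add, pow_one] at hx; exact mem_aug.1 hx
  | succ m ih =>
    intro x hx
    rw [pow_succ] at hx
    refine Submodule.mul_induction_on hx ?_ ?_
    · intro y hy z _
      rw [map_mul, ih y hy, zero_mul]
    · intro y z hy hz
      rw [map_add, hy, hz, add_zero]

private theorem add_pow' {G : Type u} [Group G] {v : G → ℂ}
    (h : ∀ g h, v (g * h) = v g + v h) (m : ℕ) :
    ∀ x ∈ augIdeal G ^ (m + 2), lext v x = 0 := by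
  intro x hx
  rw [pow_succ] at hx
  refine Submodule.mul_induction_on hx ?_ ?_
  · intro y hy z hz
    rw [lext_mul_add h, mem_aug.1 hz, aug_pow m y hy]
    simp
  · intro y z hy hz
    rw [map_add, hy, hz, add_zero]

private theorem c_pow {G : Type u} [Group G] {a b c : G → ℂ}
    (ha : ∀ g h, a (g * h) = a g + a h)
    (hc : ∀ g h, c (g * h) = c g + c h + a g * b h) (m : ℕ) :
    ∀ x ∈ augIdeal G ^ (m + 3), lext c x = 0 := by
  intro x hx
  rw [pow_succ] at hx
  refine Submodule.mul_induction_on hx ?_ ?_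
  · intro y hy z hz
    rw [lext_mul hc, mem_aug.1 hz, aug_pow (m + 1) y hy, add_pow' ha m y hy]
    simp
  · intro y z hy hz
    rw [map_add, hy, hz, add_zero]

theorem exists_functionals {G : Type u} [Group G] {n : ℕ} {R : Set (Matrix (Fin n) (Fin n) ℚ)}
    {k : ℕ} (hk : 2 ≤ k) (ρ : G →* QAlg n R k) (hρ : ∀ g, IsGrouplike (ρ g))
    (hsurj : Function.Surjective (MonoidAlgebra.lift ℚ (QAlg n R k) G ρ))
    (hker : ∀ x, MonoidAlgebra.lift ℚ (QAlg n R k) G ρ x = 0 ↔ x ∈ augIdeal G ^ (k + 1))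
    {a b c : G → ℂ} (ha : ∀ g h, a (g * h) = a g + a h) (hb : ∀ g h, b (g * h) = b g + b h)
    (hc : ∀ g h, c (g * h) = c g + c h + a g * b h) :
    ∃ fa fb : QAlg n R k →ₗ[ℚ] ℂ, (∀ g, fa (ρ g) = a g) ∧ (∀ g, fb (ρ g) = b g) ∧
      fa 1 = 0 ∧ fb 1 = 0 ∧
      (∀ x y, augQ n R k x = 0 → augQ n R k y = 0 → fa (x * y) = 0) ∧
      (∀ x y, augQ n R k x = 0 → augQ n R k y = 0 → fb (x * y) = 0) ∧
      ∀ r ∈ R, ∑ i, ∑ j, ((r i j : ℚ) : ℂ) * (fa (gen n R k i) * fb (gen n R k j)) = 0 := by
  obtain ⟨m, rfl⟩ : ∃ m, k = m + 2 := ⟨k - 2, by omega⟩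
  set L : MonoidAlgebra ℚ G →ₐ[ℚ] QAlg n R (m + 2) := MonoidAlgebra.lift ℚ (QAlg n R (m + 2)) G ρ with hL
  have hLof : ∀ g, L (MonoidAlgebra.of ℚ G g) = ρ g := fun g => MonoidAlgebra.lift_of ρ g
  have hε : ∀ x, augQ n R (m + 2) (L x) = augG G x := by
    intro x
    induction x using MonoidAlgebra.induction_on with
    | of g => rw [hLof, augQ_grouplike (hρ g), augG_of]
    | add y z hy hz => rw [map_add, map_add, map_add, hy, hz]
    | smul r y hy => rw [map_smul, map_smul, map_smul, hy]
  obtain ⟨s, hs⟩ := LinearMap.exists_rightInverse_of_surjective L.toLinearMap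
    (LinearMap.range_eq_top.2 hsurj)
  have hs' : ∀ x, L (s x) = x := fun x => by
    have := LinearMap.congr_fun hs x
    simpa using this
  have key : ∀ (f : MonoidAlgebra ℚ G →ₗ[ℚ] ℂ), (∀ x ∈ augIdeal G ^ (m + 3), f x = 0) →
      ∀ x, (f.comp s) (L x) = f x := by
    intro f hf x
    have h1 : s (L x) - x ∈ augIdeal G ^ (m + 3) := by
      have h2 := (hker (s (L x) - x)).1 (by rw [map_sub, hs', sub_self])
      exact h2
    have h3 := hf _ h1
    rw [map_sub, sub_eq_zero] at h3
    exact h3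
  have hfa := key (lext a) (fun x hx => add_pow' ha (m + 1) x hx)
  have hfb := key (lext b) (fun x hx => add_pow' hb (m + 1) x hx)
  have hfc := key (lext c) (fun x hx => c_pow ha hc m x hx)
  have ha1 : a 1 = 0 := by have := ha 1 1; rw [mul_one] at this; linear_combination -this
  have hb1 : b 1 = 0 := by have := hb 1 1; rw [mul_one] at this; linear_combination -this
  have hone : L (MonoidAlgebra.of ℚ G 1) = 1 := by rw [map_one, map_one]
  refine ⟨(lext a).comp s, (lext b).comp s, ?_, ?_, ?_, ?_, ?_, ?_, ?_⟩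
  · intro g; rw [← hLof, hfa, lext_of]
  · intro g; rw [← hLof, hfb, lext_of]
  · rw [← hone, hfa, lext_of, ha1]
  · rw [← hone, hfb, lext_of, hb1]
  · intro x y hx hy
    rw [← hs' x, ← hs' y, ← map_mul, hfa, lext_mul_add ha, ← hε, ← hε, hs', hs', hx, hy]
    simp
  · intro x y hx hy
    rw [← hs' x, ← hs' y, ← map_mul, hfb, lext_mul_add hb, ← hε, ← hε, hs', hs', hx, hy]
    simp
  · intro r hr
    have hq : ∑ i, ∑ j, r i j • (gen n R (m + 2) i * gen n R (m + 2) j) = 0 := by
      have h1 := RingQuot.mkAlgHom_rel ℚ (QRel.quad (k := m + 2) hr)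
      rw [map_zero, map_sum] at h1
      rw [← h1]
      refine Finset.sum_congr rfl fun i _ => ?_
      rw [map_sum]
      refine Finset.sum_congr rfl fun j _ => ?_
      rw [map_smul, map_mul]
      rfl
    have hprod : ∀ i j, ((lext c).comp s) (gen n R (m + 2) i * gen n R (m + 2) j) =
        ((lext a).comp s) (gen n R (m + 2) i) * ((lext b).comp s) (gen n R (m + 2) j) := by
      intro i j
      have h1 : augG G (s (gen n R (m + 2) i)) = 0 := by rw [← hε, hs', augQ_gen]
      have h2 : augG G (s (gen n R (m + 2) j)) = 0 := by rw [← hε, hs', augQ_gen]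
      conv_lhs => rw [← hs' (gen n R (m + 2) i), ← hs' (gen n R (m + 2) j)]
      rw [← map_mul, hfc, lext_mul hc, h1, h2]
      simp
    have h3 := congrArg ((lext c).comp s) hq
    rw [map_zero, map_sum] at h3
    rw [← h3]
    refine Finset.sum_congr rfl fun i _ => ?_
    rw [map_sum]
    refine Finset.sum_congr rfl fun j _ => ?_
    rw [map_smul, hprod, Rat.smul_def]

end MFib
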