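import Pool.Agent.Lib.MFib.Formal

/-!
# MP_7a61d8_gt, module F.Congr (size 90): 1-formality is invariant under isomorphisms

PROOF. Replace `ρ k` by `(ρ k).comp e.symm`. Let `E : ℚ[H] → ℚ[G]` be the algebra isomorphism induced by `e.symm` (`MonoidAlgebra.domCongr`). `lift (ρ k ∘ e.symm) = lift (ρ k) ∘ E`
(algebra homs which agree on the elements of `H`), so it is surjective. `augG G ∘ E = augG H`, so `E` maps `augIdeal H` onto `augIdeal G` and `augIdeal H ^ (k + 1)` onto
`augIdeal G ^ (k + 1)` (`Submodule.map_pow` / `Submodule.map_mul` for algebra homs); as `E` is injective `E x ∈ augIdeal G ^ (k + 1) ↔ x ∈ augIdeal H ^ (k + 1)`.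
-/

set_option autoImplicit false

universe u v

namespace MFib

theorem OneFormal.congr {G : Type u} [Group G] {H : Type v} [Group H] (e : G ≃* H)
    (hG : OneFormal G) : OneFormal H := by
  obtain ⟨n, R, ρ, h1, h2, h3, h4, h5⟩ := hG
  let E : MonoidAlgebra ℚ H ≃ₐ[ℚ] MonoidAlgebra ℚ G := MonoidAlgebra.domCongr ℚ ℚ e.symm
  have hlift : ∀ k, MonoidAlgebra.lift ℚ (QAlg n R k) H ((ρ k).comp e.symm.toMonoidHom) =
      (MonoidAlgebra.lift ℚ (QAlg n R k) G (ρ k)).comp E.toAlgHom := by
    intro k
    refine MonoidAlgebra.algHom_ext (fun g => ?_) (Subsingleton.elim _ _)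
    simp [E]
  have haug : augG H = (augG G).comp E.toAlgHom := by
    refine MonoidAlgebra.algHom_ext (fun g => ?_) (Subsingleton.elim _ _)
    simp [E, augG]
  have hmap : (augIdeal H).map E.toAlgHom.toLinearMap = augIdeal G := by
    ext x
    simp only [Submodule.mem_map, augIdeal, LinearMap.mem_ker, haug]
    constructor
    · rintro ⟨y, hy, rfl⟩
      exact hy
    · intro hx
      refine ⟨E.symm x, ?_, ?_⟩
      · simpa using hx
      · simp
  have hpow : ∀ k, (augIdeal H ^ k).map E.toAlgHom.toLinearMap = augIdeal G ^ k := by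
    intro k
    rw [Submodule.map_pow, hmap]
  refine ⟨n, R, fun k => (ρ k).comp e.symm.toMonoidHom, h1, fun k g => h2 k _, ?_, ?_, ?_⟩
  · intro k
    rw [hlift k]
    exact (h3 k).comp E.surjective
  · intro k x
    rw [hlift k]
    have h6 := h4 k (E x)
    have h7 : (E x ∈ augIdeal G ^ (k + 1)) ↔ x ∈ augIdeal H ^ (k + 1) := by
      rw [← hpow (k + 1), Submodule.mem_map]
      constructor
      · rintro ⟨y, hy, hxy⟩
        have : y = x := E.injective hxy
        rwa [← this]
      · intro hx
        exact ⟨x, hx, rfl⟩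
    exact h6.trans h7
  · intro k
    obtain ⟨π, hπ, hπ'⟩ := h5 k
    exact ⟨π, hπ, fun g => hπ' _⟩

end MFib
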