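import Pool.Agent.Lib.MFib.F.Rep

/-!
# MP_7a61d8_gt, module F.Cross (size 170): crossed homomorphisms from 1-formality

PROOF. Take the data of `OneFormal` at level `k = N`, `fa`, `fb` from `exists_functionals`, `φ` from `exists_rep` with `α i = fa (gen i)`,
`β i = fb (gen i)`. Let `g ∈ G`, `ρ g = ∑ i ≤ k, z ^ i / i!` with `z` a Lie element. `fa (z ^ i) = 0` for `i ≥ 2` (`z ^ i = z * z ^ (i - 1)`, both factors have
augmentation `0`) and `fa 1 = 0`, so `fa z = fa (ρ g) = a g`, and `fb z = b g`. By `lie_form` `φ z = [[s, v], [0, 0]]` with `s = cc (a g) * t`,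
`v = cc (b g) + t u`. `(φ z) ^ i = [[s ^ i, s ^ (i - 1) v], [0, 0]]` for `i ≥ 1`. So `φ (ρ g) = [[∑ i ≤ k, s ^ i / i!, w], [0, 1]]` with
`w = ∑ 1 ≤ i ≤ k, s ^ (i - 1) v / i!`, which is congruent to `cc (b g)` modulo `t` (`s` is a multiple of `t`); so `w` is the class of a power series `f g` with
constant coefficient `b g`. The class of `exp (a g t) = rescale (a g) (exp ℂ)` is `∑ i ≤ k, s ^ i / i!` (the coefficients below `t ^ k` agree;
`PowerSeries.X_pow_dvd_iff`). `φ (ρ (g h)) = φ (ρ g) φ (ρ h)`; the entry `(0, 1)` is: `w(gh) = e(g) w(h) + w(g)`; translate the equality in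
`BB k` to divisibility by `X ^ N` (`Ideal.Quotient.eq`, `Ideal.mem_span_singleton`).
-/

set_option autoImplicit false

universe u

namespace MFib

open PowerSeries in
private theorem map_exp {n : ℕ} {R : Set (Matrix (Fin n) (Fin n) ℚ)} {k : ℕ}
    (f : QAlg n R k →ₗ[ℚ] ℂ) (hf1 : f 1 = 0)
    (hf2 : ∀ x y, augQ n R k x = 0 → augQ n R k y = 0 → f (x * y) = 0) {z : QAlg n R k}
    (hz : augQ n R k z = 0) {N : ℕ} (hN : 1 ≤ N) :
    f (∑ i ∈ Finset.range (N + 1), ((i.factorial : ℚ)⁻¹) • z ^ i) = f z := by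
  rw [map_sum, Finset.sum_eq_single 1]
  · simp
  · intro i _ hi
    rcases i with _ | _ | i
    · simp [hf1]
    · exact absurd rfl hi
    · rw [map_smul, pow_succ, hf2 _ _ _ hz, smul_zero]
      rw [pow_succ, map_mul, hz, mul_zero]
  · intro h
    exact absurd (Finset.mem_range.mpr (by omega)) h

private theorem mat_pow {B : Type*} [CommRing B] (s v : B) (i : ℕ) :
    (!![s, v; 0, 0] : Matrix (Fin 2) (Fin 2) B) ^ (i + 1) = !![s ^ (i + 1), s ^ i * v; 0, 0] := by
  induction i with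
  | zero => simp
  | succ i ih =>
    rw [pow_succ, ih, Matrix.mul_fin_two]
    ext p q
    fin_cases p <;> fin_cases q <;> simp [pow_succ]

private theorem exp_trunc (x : ℂ) (N : ℕ) :
    (PowerSeries.X : PowerSeries ℂ) ^ N ∣
      (∑ i ∈ Finset.range (N + 1), ((i.factorial : ℚ)⁻¹) • (PowerSeries.C x * PowerSeries.X) ^ i) -
        PowerSeries.rescale x (PowerSeries.exp ℂ) := by
  rw [PowerSeries.X_pow_dvd_iff]
  intro m hm
  rw [map_sub, map_sum, PowerSeries.coeff_rescale, PowerSeries.coeff_exp,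
    Finset.sum_eq_single m]
  · rw [map_rat_smul, mul_pow, ← map_pow, PowerSeries.coeff_C_mul, PowerSeries.coeff_X_pow_self,
      Rat.smul_def]
    simp
    ring
  · intro i _ hi
    rw [map_rat_smul, mul_pow, ← map_pow, PowerSeries.coeff_C_mul, PowerSeries.coeff_X_pow,
      if_neg (Ne.symm hi), mul_zero, smul_zero]
  · intro h
    exact absurd (Finset.mem_range.mpr (by omega)) h

private theorem mk_rat_smul {k : ℕ} (q : ℚ) (f : PowerSeries ℂ) :
    (Ideal.Quotient.mk (Ideal.span {(PowerSeries.X : PowerSeries ℂ) ^ k}) (q • f) : BB k) =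
      q • (Ideal.Quotient.mk (Ideal.span {(PowerSeries.X : PowerSeries ℂ) ^ k}) f : BB k) :=
  map_rat_smul _ q f

/-- the exponential of a matrix -/
private theorem exp_mat {k : ℕ} (x y : ℂ) (u : PowerSeries ℂ) {N : ℕ} (hN : 1 ≤ N) (hk : k = N) :
    ∃ f : PowerSeries ℂ, PowerSeries.constantCoeff f = y ∧
      ∑ i ∈ Finset.range (N + 1), ((i.factorial : ℚ)⁻¹) •
        (!![cc k x * tt k, cc k y + tt k * Ideal.Quotient.mk _ u; 0, 0] :
          Matrix (Fin 2) (Fin 2) (BB k)) ^ i =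
      !![Ideal.Quotient.mk _ (PowerSeries.rescale x (PowerSeries.exp ℂ)),
        Ideal.Quotient.mk _ f; 0, 1] := by
  subst hk
  refine ⟨∑ i ∈ Finset.range k, (((i + 1).factorial : ℚ)⁻¹) •
    ((PowerSeries.C x * PowerSeries.X) ^ i * (PowerSeries.C y + PowerSeries.X * u)), ?_, ?_⟩
  · rw [map_sum, Finset.sum_eq_single 0]
    · simp
    · intro i _ hi
      rw [map_rat_smul, map_mul, map_pow, map_mul, PowerSeries.constantCoeff_X, mul_zero,
        zero_pow hi, zero_mul, smul_zero]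
    · intro h
      exact absurd (Finset.mem_range.mpr (by omega)) h
  · have h00 : (Ideal.Quotient.mk (Ideal.span {(PowerSeries.X : PowerSeries ℂ) ^ k})
        (PowerSeries.rescale x (PowerSeries.exp ℂ)) : BB k) =
        ∑ i ∈ Finset.range (k + 1), ((i.factorial : ℚ)⁻¹) • (cc k x * tt k) ^ i := by
      have h1 : (Ideal.Quotient.mk (Ideal.span {(PowerSeries.X : PowerSeries ℂ) ^ k})
          (∑ i ∈ Finset.range (k + 1), ((i.factorial : ℚ)⁻¹) •
            (PowerSeries.C x * PowerSeries.X) ^ i) : BB k) =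
          Ideal.Quotient.mk _ (PowerSeries.rescale x (PowerSeries.exp ℂ)) := by
        rw [Ideal.Quotient.eq, Ideal.mem_span_singleton]
        exact exp_trunc x k
      rw [← h1, map_sum]
      refine Finset.sum_congr rfl fun i _ => ?_
      rw [mk_rat_smul, map_pow, map_mul]
      rfl
    have h01 : (Ideal.Quotient.mk (Ideal.span {(PowerSeries.X : PowerSeries ℂ) ^ k})
        (∑ i ∈ Finset.range k, (((i + 1).factorial : ℚ)⁻¹) •
          ((PowerSeries.C x * PowerSeries.X) ^ i * (PowerSeries.C y + PowerSeries.X * u))) :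
          BB k) = ∑ i ∈ Finset.range k, (((i + 1).factorial : ℚ)⁻¹) •
            ((cc k x * tt k) ^ i * (cc k y + tt k * Ideal.Quotient.mk _ u)) := by
      rw [map_sum]
      refine Finset.sum_congr rfl fun i _ => ?_
      rw [mk_rat_smul, map_mul, map_pow, map_mul, map_add, map_mul]
      rfl
    rw [h00, h01, Finset.sum_range_succ', Finset.sum_range_succ']
    simp only [mat_pow]
    ext p q
    fin_cases p <;> fin_cases q <;> simp [Matrix.sum_apply]

theorem exists_crossed {G : Type u} [Group G] (hG : OneFormal G) {a b c : G → ℂ}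
    (ha : ∀ g h, a (g * h) = a g + a h) (hb : ∀ g h, b (g * h) = b g + b h)
    (hc : ∀ g h, c (g * h) = c g + c h + a g * b h) {N : ℕ} (hN : 2 ≤ N) :
    ∃ f : G → PowerSeries ℂ,
      (∀ g h, (PowerSeries.X : PowerSeries ℂ) ^ N ∣
        f (g * h) - (f g + PowerSeries.rescale (a g) (PowerSeries.exp ℂ) * f h)) ∧
      ∀ g, PowerSeries.constantCoeff (f g) = b g := by
  obtain ⟨n, R, ρ, hR, hgl, hsurj, hker, -⟩ := hG
  obtain ⟨fa, fb, hfa, hfb, hfa1, hfb1, hfa2, hfb2, hrel⟩ :=
    exists_functionals hN (ρ N) (hgl N) (hsurj N) (hker N) ha hb hc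
  obtain ⟨φ, hφ⟩ := exists_rep (k := N) hR (fun i => fa (gen n R N i))
    (fun i => fb (gen n R N i)) hrel
  have key : ∀ g, ∃ f : PowerSeries ℂ, PowerSeries.constantCoeff f = b g ∧
      φ (ρ N g) = !![Ideal.Quotient.mk _ (PowerSeries.rescale (a g) (PowerSeries.exp ℂ)),
        Ideal.Quotient.mk _ f; 0, 1] := by
    intro g
    obtain ⟨z, hz, hρ⟩ := hgl N g
    have hz0 := augQ_lie hz
    have haz : fa z = a g := by
      rw [← hfa g, hρ, map_exp fa hfa1 hfa2 hz0 (by omega)]
    have hbz : fb z = b g := by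
      rw [← hfb g, hρ, map_exp fb hfb1 hfb2 hz0 (by omega)]
    obtain ⟨u, hu⟩ := lie_form φ fa fb hφ hfa2 hfb2 hz
    obtain ⟨u', rfl⟩ := Ideal.Quotient.mk_surjective u
    obtain ⟨f, hf0, hf⟩ := exp_mat (k := N) (a g) (b g) u' (N := N) (by omega) rfl
    refine ⟨f, hf0, ?_⟩
    rw [← hf, hρ, map_sum]
    refine Finset.sum_congr rfl fun i _ => ?_
    rw [map_smul, map_pow, hu, haz, hbz]
  choose f hf0 hf using key
  refine ⟨f, fun g h => ?_, hf0⟩
  have h1 : φ (ρ N (g * h)) = φ (ρ N g) * φ (ρ N h) := by rw [map_mul, map_mul]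
  rw [hf, hf, hf, Matrix.mul_fin_two] at h1
  have h2 := congrFun (congrFun h1 0) 1
  simp only [Matrix.of_apply, Matrix.cons_val_zero, Matrix.cons_val_one, Matrix.cons_val,
    mul_one] at h2
  rw [← map_mul, ← map_add, Ideal.Quotient.eq, Ideal.mem_span_singleton] at h2
  rw [add_comm (f g)]
  exact h2

end MFib
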