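import Mathlib

/-!
# MP_7a61d8_gt, module F.Ord (size 130): eigenvectors with eigenvalue `exp (c t)`

PROOF. Let `E = rescale c (exp ℂ)`, `A = M.map C - E • 1` (matrix over `ℂ[[t]]`), so `A v = 0` modulo `X ^ N`; multiply by the adjugate: `X ^ N ∣ det A * v i`
(`Matrix.adjugate_mul`, `Matrix.mulVec`). `det (E • 1 - M.map C) = (charpoly M).eval₂ C E` (apply the ring hom `Polynomial.eval₂RingHom C E` to
`Matrix.charpoly`, `RingHom.map_det`). Write `charpoly M = (X - 1) ^ s * χ₁` with `χ₁.eval 1 ≠ 0` (`Polynomial.exists_eq_pow_rootMultiplicity_mul_and_not_dvd`), `s ≤ r`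
(`natDegree`). `E - 1 = X * u` with `u` of constant coefficient `c ≠ 0`, a unit, and `χ₁ (E)` has constant coefficient `χ₁ (1) ≠ 0`, a unit. So `det A = X ^ s * unit` up to sign and
`X ^ N ∣ X ^ s * v i`, `N > r ≥ s`, so `X ∣ v i` (`mul_dvd_mul_iff_left`), the constant coefficient vanishes (`PowerSeries.X_dvd_iff`).
-/

set_option autoImplicit false

namespace MFib

theorem coeff_zero_of_eigen {r N : ℕ} (hN : r < N) (M : Matrix (Fin r) (Fin r) ℂ) {c : ℂ}
    (hc : c ≠ 0) (v : Fin r → PowerSeries ℂ)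
    (h : ∀ i, (PowerSeries.X : PowerSeries ℂ) ^ N ∣
      (∑ j, PowerSeries.C (M i j) * v j) - PowerSeries.rescale c (PowerSeries.exp ℂ) * v i)
    (i : Fin r) : PowerSeries.constantCoeff (v i) = 0 := by
  obtain ⟨E, hE⟩ : ∃ E : PowerSeries ℂ, E = PowerSeries.rescale c (PowerSeries.exp ℂ) := ⟨_, rfl⟩
  rw [← hE] at h
  have hE0 : PowerSeries.constantCoeff E = 1 := by
    rw [hE, ← PowerSeries.coeff_zero_eq_constantCoeff_apply, PowerSeries.coeff_rescale, PowerSeries.coeff_exp]
    simp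
  have hE1 : PowerSeries.coeff 1 E = c := by
    rw [hE, PowerSeries.coeff_rescale, PowerSeries.coeff_exp]
    simp
  choose q hq using h
  obtain ⟨A, hA⟩ : ∃ A : Matrix (Fin r) (Fin r) (PowerSeries ℂ), A = M.map PowerSeries.C - E • (1 : Matrix _ _ _) := ⟨_, rfl⟩
  have hAv : A.mulVec v = fun i => PowerSeries.X ^ N * q i := by
    funext k
    rw [← hq k, hA, Matrix.sub_mulVec, Matrix.smul_mulVec, Matrix.one_mulVec]
    rfl
  have h1 : A.det * v i = PowerSeries.X ^ N * ∑ j, A.adjugate i j * q j := by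
    have h2 : A.adjugate.mulVec (A.mulVec v) = A.det • v := by
      rw [Matrix.mulVec_mulVec, Matrix.adjugate_mul, Matrix.smul_mulVec, Matrix.one_mulVec]
    have h3 := congrFun h2 i
    rw [hAv] at h3
    simp only [Matrix.mulVec, dotProduct, Pi.smul_apply, smul_eq_mul] at h3
    rw [← h3, Finset.mul_sum]
    refine Finset.sum_congr rfl fun j _ => ?_
    ring
  have h4 : Polynomial.eval₂ PowerSeries.C E M.charpoly = (-1) ^ r * A.det := by
    have h5 : Polynomial.eval₂ PowerSeries.C E M.charpoly = (Polynomial.eval₂RingHom (PowerSeries.C (R := ℂ)) E) M.charmatrix.det := rfl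
    rw [h5, RingHom.map_det]
    have h6 : (Polynomial.eval₂RingHom (PowerSeries.C (R := ℂ)) E).mapMatrix M.charmatrix = -A := by
      ext1 a b
      rw [RingHom.mapMatrix_apply, Matrix.map_apply, hA]
      by_cases hab : a = b
      · subst hab
        simp [Matrix.charmatrix_apply_eq]
      · rw [Matrix.charmatrix_apply_ne _ _ _ hab]
        simp [hab]
    rw [h6, Matrix.det_neg, Fintype.card_fin]
  have hne : M.charpoly ≠ 0 := (Matrix.charpoly_monic M).ne_zero
  obtain ⟨χ, hχ, hdvd⟩ := Polynomial.exists_eq_pow_rootMultiplicity_mul_and_not_dvd M.charpoly hne 1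
  obtain ⟨s, hs⟩ : ∃ s, s = Polynomial.rootMultiplicity 1 M.charpoly := ⟨_, rfl⟩
  rw [← hs] at hχ
  have hsr : s ≤ r := by
    have h7 : (Polynomial.X - Polynomial.C (1 : ℂ)) ^ s ∣ M.charpoly := ⟨χ, hχ⟩
    have h8 := Polynomial.natDegree_le_of_dvd h7 hne
    rw [Matrix.charpoly_natDegree_eq_dim, Fintype.card_fin, Polynomial.natDegree_pow, Polynomial.natDegree_X_sub_C,
      mul_one] at h8
    exact h8
  have hχ1 : χ.eval 1 ≠ 0 := fun h0 => hdvd (Polynomial.dvd_iff_isRoot.2 h0)
  have hw : PowerSeries.constantCoeff (Polynomial.eval₂ PowerSeries.C E χ) = χ.eval 1 := by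
    rw [Polynomial.hom_eval₂, hE0]
    have h9 : (PowerSeries.constantCoeff (R := ℂ)).comp PowerSeries.C = RingHom.id ℂ := by
      ext x
      simp
    rw [h9]
    rfl
  obtain ⟨u, hu⟩ : PowerSeries.X ∣ E - 1 := by
    rw [PowerSeries.X_dvd_iff, map_sub, hE0, map_one, sub_self]
  have hu0 : PowerSeries.constantCoeff u = c := by
    have h10 : PowerSeries.coeff (0 + 1) (PowerSeries.X * u) = PowerSeries.coeff 0 u := PowerSeries.coeff_succ_X_mul _ _
    rw [← hu, map_sub, zero_add, hE1, PowerSeries.coeff_one, if_neg one_ne_zero, sub_zero] at h10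
    rw [← PowerSeries.coeff_zero_eq_constantCoeff_apply, ← h10]
  have h11 : (-1) ^ r * A.det = PowerSeries.X ^ s * (u ^ s * Polynomial.eval₂ PowerSeries.C E χ) := by
    rw [← h4, hχ, Polynomial.eval₂_mul, Polynomial.eval₂_pow, Polynomial.eval₂_sub, Polynomial.eval₂_X, Polynomial.eval₂_C,
      map_one, hu, mul_pow, mul_assoc]
  have h12 : (PowerSeries.X : PowerSeries ℂ) ^ (s + 1) ∣ PowerSeries.X ^ s * ((u ^ s * Polynomial.eval₂ PowerSeries.C E χ) * v i) := by
    rw [← mul_assoc, ← h11, mul_assoc, h1]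
    exact ((pow_dvd_pow _ (by omega)).trans (Dvd.intro _ rfl)).mul_left _
  rw [pow_succ] at h12
  have h13 := (mul_dvd_mul_iff_left (pow_ne_zero s PowerSeries.X_ne_zero)).1 h12
  rw [PowerSeries.X_dvd_iff, map_mul, map_mul, map_pow, hu0, hw] at h13
  rcases mul_eq_zero.1 h13 with h14 | h14
  · exact absurd h14 (mul_ne_zero (pow_ne_zero s hc) hχ1)
  · exact h14

end MFib
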