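import Pool.Agent.Lib.MFib.F.Cross
import Pool.Agent.Lib.MFib.F.Ord

/-!
# MP_7a61d8_gt, module F.Key (size 150): the obstruction to 1-formality

PROOF. `K = closure {k_1, …, k_r}`. Take `f` from `exists_crossed` with `N = max 2 (r + 1)`; write `≡` for congruence modulo `X ^ N` and
`E x = rescale (a x) (exp ℂ)`. `E x = 1` if `a x = 0` (`rescale 0`), so `f (k x) ≡ f k + f x` for `k ∈ K`; `f 1 ≡ 0`, `f k⁻¹ ≡ - f k`. By induction on the closure every
`x ∈ K` has `f x ≡ ∑ j, m_j f (k_j)` with integers `m_j`. For `k ∈ K`: `f (g⁻¹ k g) ≡ f g⁻¹ + E g⁻¹ (f k + f g)` and `0 ≡ f (g⁻¹ g) ≡ f g⁻¹ + E g⁻¹ f g`, so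
`f (g⁻¹ k g) ≡ E g⁻¹ f k`, `E g⁻¹ = rescale (- a g) (exp ℂ)`. As `g⁻¹ k_i g ∈ K` there are integers `M i j` with `∑ j M i j f (k_j) ≡ E g⁻¹ f (k_i)`: by
`coeff_zero_of_eigen` (`c = - a g ≠ 0`) `b (k_i) = constantCoeff (f k_i) = 0`. So `b = 0` on `K` (closure induction; `b` is additive).
-/

set_option autoImplicit false

universe u

namespace MFib

theorem OneFormal.key {G : Type u} [Group G] (hG : OneFormal G) {a b c : G → ℂ}
    (ha : ∀ g h, a (g * h) = a g + a h) (hb : ∀ g h, b (g * h) = b g + b h)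
    (hc : ∀ g h, c (g * h) = c g + c h + a g * b h) (K : Subgroup G) (hK : K.FG) (g : G)
    (hg : ∀ k ∈ K, g⁻¹ * k * g ∈ K) (haK : ∀ k ∈ K, a k = 0) (hag : a g ≠ 0) :
    ∀ k ∈ K, b k = 0 := by
  classical
  obtain ⟨S, hS⟩ := hK
  obtain ⟨r, ⟨e⟩⟩ : ∃ r : ℕ, Nonempty (Fin r ≃ S) := ⟨S.card, ⟨S.equivFin.symm⟩⟩
  have hrN : r < max 2 (r + 1) := lt_of_lt_of_le (Nat.lt_succ_self r) (le_max_right _ _)
  obtain ⟨f, hf, hf0⟩ := exists_crossed hG ha hb hc (le_max_left 2 (r + 1))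
  generalize max 2 (r + 1) = N at hf hrN
  obtain ⟨I, hI⟩ : ∃ I : Ideal (PowerSeries ℂ), I = Ideal.span {(PowerSeries.X : PowerSeries ℂ) ^ N} :=
    ⟨_, rfl⟩
  let q : PowerSeries ℂ →+* PowerSeries ℂ ⧸ I := Ideal.Quotient.mk I
  have hq : ∀ x y : PowerSeries ℂ, q x = q y ↔ (PowerSeries.X : PowerSeries ℂ) ^ N ∣ x - y := by
    intro x y
    rw [← Ideal.mem_span_singleton, ← hI]
    exact Ideal.Quotient.eq
  have a1 : a 1 = 0 := by
    have := ha 1 1
    rw [mul_one] at this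
    linear_combination -this
  have b1 : b 1 = 0 := by
    have := hb 1 1
    rw [mul_one] at this
    linear_combination -this
  have ainv : ∀ x, a x⁻¹ = - a x := by
    intro x
    have := ha x⁻¹ x
    rw [inv_mul_cancel, a1] at this
    linear_combination -this
  have binv : ∀ x, b x⁻¹ = - b x := by
    intro x
    have := hb x⁻¹ x
    rw [inv_mul_cancel, b1] at this
    linear_combination -this
  obtain ⟨F, hFdef⟩ : ∃ F : G → PowerSeries ℂ ⧸ I, ∀ x, F x = q (f x) := ⟨_, fun _ => rfl⟩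
  obtain ⟨E, hEdef⟩ : ∃ E : ℂ → PowerSeries ℂ ⧸ I,
      ∀ z, E z = q (PowerSeries.rescale z (PowerSeries.exp ℂ)) := ⟨_, fun _ => rfl⟩
  have hE0 : E 0 = 1 := by
    rw [hEdef, PowerSeries.rescale_zero_apply]
    simp
  have hF : ∀ x y, F (x * y) = F x + E (a x) * F y := by
    intro x y
    have := (hq _ _).2 (hf x y)
    rw [hFdef, hFdef, hFdef, hEdef, this, map_add, map_mul]
  have hF1 : F 1 = 0 := by
    have := hF 1 1
    rw [mul_one, a1, hE0] at this
    linear_combination -this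
  have hFK : ∀ k ∈ K, ∀ x, F (k * x) = F k + F x := by
    intro k hk x
    rw [hF, haK k hk, hE0, one_mul]
  have hFinv : ∀ k ∈ K, F k⁻¹ = - F k := by
    intro k hk
    have := hFK k hk k⁻¹
    rw [mul_inv_cancel, hF1] at this
    linear_combination -this
  have hclos : ∀ x ∈ K, ∃ m : Fin r → ℤ, F x = ∑ j, ((m j : ℤ) : PowerSeries ℂ ⧸ I) * F (e j : G) := by
    intro x hx
    have hx' : x ∈ Subgroup.closure (S : Set G) := by rw [hS]; exact hx
    induction hx' using Subgroup.closure_induction with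
    | mem x hxS =>
      refine ⟨Pi.single (e.symm ⟨x, hxS⟩) 1, ?_⟩
      rw [Finset.sum_eq_single (e.symm ⟨x, hxS⟩)]
      · simp
      · intro j _ hj
        simp [Pi.single_eq_of_ne hj]
      · intro h
        exact absurd (Finset.mem_univ _) h
    | one => exact ⟨0, by simp [hF1]⟩
    | mul x y hx' hy' ihx ihy =>
      rw [hS] at hx' hy'
      obtain ⟨m, hm⟩ := ihx hx'
      obtain ⟨n, hn⟩ := ihy hy'
      refine ⟨m + n, ?_⟩
      rw [hFK x hx', hm, hn, ← Finset.sum_add_distrib]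
      refine Finset.sum_congr rfl fun j _ => ?_
      rw [Pi.add_apply, Int.cast_add, add_mul]
    | inv x hx' ihx =>
      rw [hS] at hx'
      obtain ⟨m, hm⟩ := ihx hx'
      refine ⟨-m, ?_⟩
      rw [hFinv x hx', hm, ← Finset.sum_neg_distrib]
      refine Finset.sum_congr rfl fun j _ => ?_
      rw [Pi.neg_apply, Int.cast_neg]
      ring
  have hSK : ∀ j, (e j : G) ∈ K := by
    intro j
    rw [← hS]
    exact Subgroup.subset_closure (e j).2
  have hconj : ∀ k ∈ K, F (g⁻¹ * k * g) = E (- a g) * F k := by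
    intro k hk
    have h1 := hF (g⁻¹ * k) g
    have h2 := hF g⁻¹ k
    have h3 := hF g⁻¹ g
    rw [inv_mul_cancel, hF1, ainv] at h3
    rw [ainv] at h2
    rw [ha, haK k hk, add_zero, ainv] at h1
    rw [h1, h2]
    linear_combination -h3
  have hM : ∀ i : Fin r, ∃ m : Fin r → ℤ,
      E (- a g) * F (e i : G) = ∑ j, ((m j : ℤ) : PowerSeries ℂ ⧸ I) * F (e j : G) := by
    intro i
    obtain ⟨m, hm⟩ := hclos _ (hg _ (hSK i))
    exact ⟨m, by rw [← hconj _ (hSK i), hm]⟩
  choose M hM using hM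
  have hbS : ∀ i, b (e i : G) = 0 := by
    intro i
    rw [← hf0]
    refine coeff_zero_of_eigen hrN (fun i j => ((M i j : ℤ) : ℂ)) (neg_ne_zero.2 hag)
      (fun j => f (e j : G)) ?_ i
    intro i
    rw [← hq, map_sum, map_mul, ← hEdef, ← hFdef, hM i]
    refine Finset.sum_congr rfl fun j _ => ?_
    rw [map_mul, ← hFdef, map_intCast, map_intCast]
  intro k hk
  have hk' : k ∈ Subgroup.closure (S : Set G) := by rw [hS]; exact hk
  clear hk
  induction hk' using Subgroup.closure_induction with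
  | mem x hxS =>
    have := hbS (e.symm ⟨x, hxS⟩)
    simpa using this
  | one => exact b1
  | mul x y _ _ ihx ihy => rw [hb, ihx, ihy, add_zero]
  | inv x _ ihx => rw [binv, ihx, neg_zero]

end MFib
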