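import Pool.Agent.Lib.MFib.F.Aug

/-!
# MP_7a61d8_gt, module F.Rep (size 190): a two dimensional representation of the truncated quadratic algebra

`BB k = ℂ[[t]] / (t ^ k)`. PROOF of `exists_rep`: `FreeAlgebra.lift` with `X_i ↦ M_i = [[α_i t, β_i], [0, 0]]`, then `RingQuot.liftAlgHom`. Relations:
`M_i M_j = [[α_i α_j t ^ 2, α_i β_j t], [0, 0]]`; `∑ r i j α_i α_j = 0` since `r` is antisymmetric (exchange `i` and `j`: the sum is its own negative)
and `∑ r i j α_i β_j = 0` by hypothesis. Words: by induction on the length (`List.ofFn_succ` or induction on lists) the product of `m + 1` matrices `M_w` is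
of the form `[[t ^ (m + 1) p, t ^ m q], [0, 0]]`; for `m = k` this is `0` as `t ^ k = 0`.
`lie_form`: induction on `IsLieEl`. `gen`: `u = 0`. `add`, `smul`: clear. `bracket`: `φ (x y - y x) = φ x φ y - φ y φ x = [[0, t (…)], [0, 0]]`, and
`fa (x y) = fa (y x) = 0`, the same for `fb` (`augQ_lie`).
-/

set_option autoImplicit false

namespace MFib

noncomputable section

/-- `ℂ[[t]] / (t ^ k)` -/
abbrev BB (k : ℕ) : Type := PowerSeries ℂ ⧸ Ideal.span {(PowerSeries.X : PowerSeries ℂ) ^ k}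

/-- the class of `t` -/
def tt (k : ℕ) : BB k := Ideal.Quotient.mk _ PowerSeries.X

/-- the class of a constant -/
def cc (k : ℕ) (z : ℂ) : BB k := Ideal.Quotient.mk _ (PowerSeries.C z)

theorem tt_pow (k : ℕ) : tt k ^ k = 0 := by
  rw [tt, ← map_pow, Ideal.Quotient.eq_zero_iff_mem]
  exact Ideal.mem_span_singleton_self _

/-- `cc` as a ring homomorphism -/
private def ccHom (k : ℕ) : ℂ →+* BB k := (Ideal.Quotient.mk _).comp PowerSeries.C

private theorem ccHom_apply (k : ℕ) (z : ℂ) : ccHom k z = cc k z := rfl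

private theorem cc_zero (k : ℕ) : cc k 0 = 0 := map_zero (ccHom k)

private theorem cc_add (k : ℕ) (z w : ℂ) : cc k (z + w) = cc k z + cc k w := map_add (ccHom k) z w

private theorem smul_eq_cc (k : ℕ) (q : ℚ) (x : BB k) : q • x = cc k (q : ℂ) * x := by
  have h : q • x = algebraMap ℚ (BB k) q * x := Algebra.smul_def q x
  have h' : algebraMap ℚ (BB k) q = cc k (q : ℂ) := by
    show (Ideal.Quotient.mk _ (algebraMap ℚ (PowerSeries ℂ) q) : BB k) = Ideal.Quotient.mk _ (PowerSeries.C (q : ℂ))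
    rw [PowerSeries.algebraMap_apply, eq_ratCast]
  rw [h, h']

private theorem cc_smul (k : ℕ) (q : ℚ) (z : ℂ) : cc k (q • z) = q • cc k z := by
  rw [smul_eq_cc, ← ccHom_apply, ← ccHom_apply, ← ccHom_apply, ← map_mul, Algebra.smul_def, eq_ratCast]

private theorem word_form {n : ℕ} (k : ℕ) (α β : Fin n → ℂ) :
    ∀ (m : ℕ) (l : List (Fin n)), l.length = m + 1 →
      ∃ p q : BB k, (l.map fun i => (!![cc k (α i) * tt k, cc k (β i); 0, 0] :
        Matrix (Fin 2) (Fin 2) (BB k))).prod = !![tt k ^ (m + 1) * p, tt k ^ m * q; 0, 0] := by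
  intro m
  induction m with
  | zero =>
    intro l hl
    obtain ⟨a, rfl⟩ := List.length_eq_one_iff.1 hl
    refine ⟨cc k (α a), cc k (β a), ?_⟩
    rw [List.map_singleton, List.prod_singleton, pow_zero, one_mul, zero_add, pow_one, mul_comm]
  | succ m ih =>
    intro l hl
    cases l with
    | nil => simp at hl
    | cons a l =>
      obtain ⟨p, q, hpq⟩ := ih l (by simpa using hl)
      refine ⟨cc k (α a) * p, cc k (α a) * q, ?_⟩
      rw [List.map_cons, List.prod_cons, hpq, Matrix.mul_fin_two]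
      ext i j
      fin_cases i <;> fin_cases j <;> simp <;> ring

theorem exists_rep {n : ℕ} {R : Set (Matrix (Fin n) (Fin n) ℚ)} {k : ℕ}
    (hR : ∀ r ∈ R, r.transpose = -r) (α β : Fin n → ℂ)
    (h : ∀ r ∈ R, ∑ i, ∑ j, ((r i j : ℚ) : ℂ) * (α i * β j) = 0) :
    ∃ φ : QAlg n R k →ₐ[ℚ] Matrix (Fin 2) (Fin 2) (BB k),
      ∀ i, φ (gen n R k i) = !![cc k (α i) * tt k, cc k (β i); 0, 0] := by
  classical
  obtain ⟨A, hA⟩ : ∃ A : Fin n → Matrix (Fin 2) (Fin 2) (BB k),
      ∀ i, A i = !![cc k (α i) * tt k, cc k (β i); 0, 0] := ⟨_, fun _ => rfl⟩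
  obtain ⟨φ₀, hφ₀⟩ : ∃ φ₀ : FreeAlgebra ℚ (Fin n) →ₐ[ℚ] Matrix (Fin 2) (Fin 2) (BB k),
      ∀ i, φ₀ (FreeAlgebra.ι ℚ i) = A i :=
    ⟨FreeAlgebra.lift ℚ A, fun i => FreeAlgebra.lift_ι_apply A i⟩
  have hrel : ∀ ⦃x y⦄, QRel n R k x y → φ₀ x = φ₀ y := by
    intro x y hxy
    cases hxy with
    | quad hr =>
      rename_i r
      have h1 : ∑ i, ∑ j, ((r i j : ℚ) : ℂ) * (α i * α j) = 0 := by
        have h2 : ∑ i, ∑ j, ((r i j : ℚ) : ℂ) * (α i * α j) =
            - ∑ i, ∑ j, ((r i j : ℚ) : ℂ) * (α i * α j) := by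
          conv_lhs => rw [Finset.sum_comm]
          rw [← Finset.sum_neg_distrib]
          refine Finset.sum_congr rfl fun i _ => ?_
          rw [← Finset.sum_neg_distrib]
          refine Finset.sum_congr rfl fun j _ => ?_
          have h3 : r j i = - r i j := congr_fun (congr_fun (hR r hr) i) j
          rw [h3]
          push_cast
          ring
        exact self_eq_neg.1 h2
      have h2 := h r hr
      rw [map_zero, map_sum]
      have h3 : ∀ i, φ₀ (∑ j, r i j • (FreeAlgebra.ι ℚ i * FreeAlgebra.ι ℚ j)) =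
          ∑ j, !![cc k (((r i j : ℚ) : ℂ) * (α i * α j)) * tt k ^ 2,
            cc k (((r i j : ℚ) : ℂ) * (α i * β j)) * tt k; 0, 0] := by
        intro i
        rw [map_sum]
        refine Finset.sum_congr rfl fun j _ => ?_
        rw [map_smul, map_mul, hφ₀, hφ₀, hA, hA, Matrix.mul_fin_two]
        ext s t
        fin_cases s <;> fin_cases t <;> simp [smul_eq_cc, ← ccHom_apply] <;> ring
      rw [Finset.sum_congr rfl fun i _ => h3 i]
      ext s t
      fin_cases s <;> fin_cases t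
      · simp only [Matrix.sum_apply]
        simp only [Matrix.of_apply, Matrix.cons_val', Matrix.cons_val_zero, Fin.zero_eta,
          Matrix.zero_apply, ← Finset.sum_mul, ← ccHom_apply, ← map_sum]
        rw [h1, map_zero, zero_mul]
      · simp only [Matrix.sum_apply]
        simp only [Matrix.of_apply, Matrix.cons_val', Matrix.cons_val_zero, Matrix.cons_val_one, Fin.zero_eta,
          Fin.mk_one, Matrix.zero_apply, ← Finset.sum_mul, ← ccHom_apply, ← map_sum]
        rw [h2, map_zero, zero_mul]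
      · simp [Matrix.sum_apply]
      · simp [Matrix.sum_apply]
    | word w =>
      rw [map_zero, map_list_prod, List.map_ofFn]
      obtain ⟨p, q, hpq⟩ := word_form k α β k (List.ofFn w) (List.length_ofFn)
      have h1 : (List.ofFn (⇑φ₀ ∘ fun i => FreeAlgebra.ι ℚ (w i))) =
          (List.ofFn w).map fun i => (!![cc k (α i) * tt k, cc k (β i); 0, 0] :
        Matrix (Fin 2) (Fin 2) (BB k)) := by
        rw [List.map_ofFn]
        congr 1
        funext i
        rw [Function.comp_apply, Function.comp_apply, hφ₀, hA]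
      rw [h1, hpq, pow_succ, tt_pow, zero_mul, zero_mul, zero_mul]
      ext i j
      fin_cases i <;> fin_cases j <;> rfl
  refine ⟨RingQuot.liftAlgHom ℚ ⟨φ₀, hrel⟩, fun i => ?_⟩
  rw [gen, RingQuot.liftAlgHom_mkAlgHom_apply, hφ₀, hA]

theorem lie_form {n : ℕ} {R : Set (Matrix (Fin n) (Fin n) ℚ)} {k : ℕ}
    (φ : QAlg n R k →ₐ[ℚ] Matrix (Fin 2) (Fin 2) (BB k)) (fa fb : QAlg n R k →ₗ[ℚ] ℂ)
    (hφ : ∀ i, φ (gen n R k i) =
      !![cc k (fa (gen n R k i)) * tt k, cc k (fb (gen n R k i)); 0, 0])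
    (hfa : ∀ x y, augQ n R k x = 0 → augQ n R k y = 0 → fa (x * y) = 0)
    (hfb : ∀ x y, augQ n R k x = 0 → augQ n R k y = 0 → fb (x * y) = 0)
    {x : QAlg n R k} (hx : IsLieEl x) :
    ∃ u : BB k, φ x = !![cc k (fa x) * tt k, cc k (fb x) + tt k * u; 0, 0] := by
  induction hx with
  | gen i => exact ⟨0, by rw [hφ, mul_zero, add_zero]⟩
  | zero =>
    refine ⟨0, ?_⟩
    rw [map_zero, map_zero, map_zero, cc_zero]
    ext i j
    fin_cases i <;> fin_cases j <;> simp
  | add _ _ ihx ihy =>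
    obtain ⟨u, hu⟩ := ihx
    obtain ⟨v, hv⟩ := ihy
    refine ⟨u + v, ?_⟩
    rw [map_add, map_add, map_add, hu, hv, cc_add, cc_add]
    ext i j
    fin_cases i <;> fin_cases j <;> simp <;> ring
  | smul c _ ihx =>
    obtain ⟨u, hu⟩ := ihx
    refine ⟨c • u, ?_⟩
    rw [map_smul, map_smul, map_smul, hu, cc_smul, cc_smul]
    ext i j
    fin_cases i <;> fin_cases j <;> simp [smul_eq_cc] <;> ring
  | bracket hx hy ihx ihy =>
    rename_i x y
    obtain ⟨u, hu⟩ := ihx
    obtain ⟨v, hv⟩ := ihy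
    have hx0 := augQ_lie hx
    have hy0 := augQ_lie hy
    refine ⟨cc k (fa x) * (cc k (fb y) + tt k * v) - cc k (fa y) * (cc k (fb x) + tt k * u), ?_⟩
    rw [map_sub, map_mul, map_mul, map_sub, map_sub, hfa x y hx0 hy0, hfa y x hy0 hx0, hfb x y hx0 hy0,
      hfb y x hy0 hx0, sub_zero, cc_zero, hu, hv, Matrix.mul_fin_two, Matrix.mul_fin_two]
    ext i j
    fin_cases i <;> fin_cases j <;> simp <;> ring

end

end MFib
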